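import Mathlib
import Pool.Agent.X333.DN.Kob

/-!
MP_1e3e9c_ag, Q1: hyperbolic varieties dominated by, or finite images of, projective varieties given
by nested sums of high powers have a big canonical class.

`{F = 0}` in `ℙⁿ`, over an algebraically closed field of characteristic zero, is a projective
variety whose equations are nested sums of high powers of linear forms, or nested sums of high
powers of monomials. We consider projective varieties `X`, smooth or not, which are dominated with
degree at most `r` by an irreducible component `V` of `{F = 0}`, and the varieties `X = {Φ = 0}`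
which are images of `{F = 0}`, or of finite covers `W = {Ψ = 0}` of subvarieties of it, under
finite morphisms with fibres of at most `r` points, together with all their closed subvarieties. If
there is no rational curve on `X`, in particular if `X` is Kobayashi hyperbolic, then the canonical
class of `X` (of a resolution of `X`, if `X` is not smooth) is big. By a well-known consequence of
the base point free theorem and of the cone theorem, for smooth `X` the canonical class is then even
ample, as Kobayashi's conjecture predicts; this last step is not formalised here.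

`K` and `L` are function fields, `y` and `x` generic points: `coords` is the field generated by the
ratios of the coordinates, `VarPts k x` the set of all points of `X` (in homogeneous coordinates).
`SubVar`, `IsComponent`, `Ruled`, `GeneralType`, `Cone` (`Pool/Agent/W602/GT`), `NoRationalCurve`
(`Pool/Agent/TH466/QT/Hyp.lean`), `Mor`, `Onto`, `FibresLe`, `AllGeneral`
(`Pool/Agent/Y221/FQ/Defs.lean`), `HighTowers` (`Pool/Agent/TH710/ND/Proj.lean`).
-/

set_option autoImplicit false

namespace Pool.Agent.Results.MP_1e3e9c_ag.DominatedNestedHyperbolic

open Pool.Agent.W602.GT Pool.Agent.Y221.FQ Pool.Agent.TH710.ND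
open Pool.Agent.TH466.QT.RC (NoRationalCurve)

/-- There is no rational curve on the projective variety `{Φ = 0}`: every map from the affine line
to it (given by polynomials `g i` whose values are homogeneous coordinates of points of the variety)
is constant. -/
def NoRat {k : Type} [Field k] {M : ℕ} {μ : Type} (Φ : μ → MvPolynomial (Fin (M + 1)) k) : Prop :=
  ∀ g : Fin (M + 1) → Polynomial k, (∀ t, (fun i => (g i).eval t) ∈ Cone Φ) →
    ∀ s t, ∃ c : k, ∀ i, (g i).eval s = c * (g i).eval t

/-- Let the forms `F_e` be nested sums with at most `h + 1` levels, at most `s` summands at each,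
and exponents at least `8 r (n + 1) (h + 1) (2 s + 1) ^ 5`.

(1) Let `V` be an irreducible component of `{F = 0}` of dimension `w ≥ 1`. If `V` is not birational
to `B × ℙ¹`, then all varieties `X` with generically finite dominant rational maps `X' ⇢ V` (of any
degree) and `X' ⇢ X` (of degree at most `r`) have a big canonical class. In any case, every
projective variety `X` with a dominant rational map `V ⇢ X` of degree at most `r` which contains no
rational curve, in particular every such Kobayashi hyperbolic `X`, has a big canonical class.

(2) Let `G` be a surjective morphism from `{F = 0}` to `X = {Φ = 0}` with fibres of at most `r`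
points. If `X` contains no rational curve, in particular if `X` is Kobayashi hyperbolic, then all
closed subvarieties of positive dimension of `X`, and so all components of `X`, have a big canonical
class.

(3) If `{F = 0}` contains no rational curve, and `W = {Ψ = 0}` is a projective variety with a
morphism to `{F = 0}` and a surjective morphism to `X = {Φ = 0}` with fibres of at most `r` points,
then all closed subvarieties of positive dimension of `X` have a big canonical class. -/
theorem result {k : Type} [Field k] [IsAlgClosed k] [CharZero k] {n : ℕ} {ι : Type}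
    {F : ι → MvPolynomial (Fin (n + 1)) k} {s N h r : ℕ} (hF : HighTowers s N h F)
    (hN : 8 * (r * ((n + 1) * ((h + 1) * (2 * s + 1) ^ 5))) ≤ N) :
    (∀ (K : Type) [Field K] [Algebra k K] (w : ℕ) (y : Fin (n + 1) → K), 1 ≤ w →
      SubVar F K w y → IsComponent F y →
      (¬ Ruled k K → ∀ (K' L : Type) [Field K'] [Field L] [Algebra k K'] [Algebra k L]
        [Algebra K K'] [Algebra L K'] [IsScalarTower k K K'] [IsScalarTower k L K']
        [Algebra.IsAlgebraic K K'] [FiniteDimensional L K'], Module.finrank L K' ≤ r →
        GeneralType k L w) ∧
      ∀ (L : Type) [Field L] [Algebra k L] [Algebra L K] [IsScalarTower k L K]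
        [FiniteDimensional L K], Module.finrank L K ≤ r → ∀ (M : ℕ) (x : Fin (M + 1) → L),
        x 0 ≠ 0 → coords k x = ⊤ → NoRationalCurve k x → GeneralType k L w) ∧
    (∀ (M : ℕ) (μ : Type) (Φ : μ → MvPolynomial (Fin (M + 1)) k)
      (G : Fin (M + 1) → MvPolynomial (Fin (n + 1)) k), (∀ e, IsForm (Φ e)) → Mor F Φ G →
      Onto F Φ G → FibresLe F G r → NoRat Φ → AllGeneral Φ) ∧
    (NoRat F → ∀ (m M : ℕ) (κ μ : Type) (Ψ : κ → MvPolynomial (Fin (m + 1)) k)
      (Φ : μ → MvPolynomial (Fin (M + 1)) k) (B : Fin (n + 1) → MvPolynomial (Fin (m + 1)) k)
      (G : Fin (M + 1) → MvPolynomial (Fin (m + 1)) k), (∀ e, IsForm (Ψ e)) → Mor Ψ F B →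
      Mor Ψ Φ G → Onto Ψ Φ G → FibresLe Ψ G r → AllGeneral Φ) := by
  refine ⟨fun K _ _ w y hw hy hcomp => ⟨fun hR K' L _ _ _ _ _ _ _ _ _ _ hr => ?_,
    fun L _ _ _ _ _ hr M x hx hgen hno => ?_⟩, fun M μ Φ G hΦ hG hon hfib hno => ?_,
    fun hno m M κ μ Ψ Φ B G hΨ hB hG hon hfib => ?_⟩
  · exact (Pool.Agent.X333.DN.abu_corr' (K := K) (K' := K') hF hw hN hy hcomp hR hr).1
  · exact Pool.Agent.X333.DN.kob_dom hF hw hy hcomp hN hr hx hgen hno
  · refine ((Pool.Agent.X333.DN.all_im hΦ hG hon hfib hF hN).out 0 1).2 fun P hP => ?_
    obtain ⟨g, hg, a, b, hab⟩ := Pool.Agent.X333.DN.line_of_gm hP hΦ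
    obtain ⟨c, hc⟩ := hno g hg a b
    obtain ⟨i, hi⟩ := hab c
    exact hi (hc i)
  · refine Pool.Agent.X333.DN.all_cover hΨ hB hG hon hfib hF hN fun P hP => ?_
    obtain ⟨g, hg, a, b, hab⟩ := Pool.Agent.X333.DN.line_of_gm hP hF.form
    obtain ⟨c, hc⟩ := hno g hg a b
    obtain ⟨i, hi⟩ := hab c
    exact hi (hc i)

end Pool.Agent.Results.MP_1e3e9c_ag.DominatedNestedHyperbolic
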