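import Mathlib
import Pool.Agent.X333.PW.Rho

/-!
MP_1e3e9c_ag, Q1: the canonical classes of the subvarieties, and of the varieties dominated by them,
of the projective varieties `X` which are, outside a closed subset `Z`, unions of images of
quasi-projective varieties given by nested sums of high powers.

`X = {Φ = 0}` is a projective variety in `ℙ^M` over an algebraically closed field of characteristic
zero. For finitely many indices `a` let `V_a = {F_a = 0, Q_a ≠ 0}` be quasi-projective varieties in
projective spaces of any dimensions `n a`, where the equations `F_a` are nested sums of high powers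
of linear forms, or nested sums of high powers of monomials, and `Q_a` is any form, and let
`V_a → X` be morphisms given by forms, with fibres of at most `r a` points, such that `X \ Z` is
contained in the union of their images. The morphisms need not be finite, proper or dominant, they
need not extend to `{F_a = 0}`, and nothing is assumed on the singularities.

If there are no nonconstant morphisms from the multiplicative group to `X` with image not in `Z`, in
particular if `X` is Kobayashi hyperbolic, then the canonical classes of the closed subvarieties
`S` not in `Z` of `X` are big, and so are those of all varieties dominated by such an `S` with degree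
at most `ρ`. By a well-known consequence of the base point free theorem and of the cone theorem, the
canonical class of a smooth hyperbolic variety is then even ample, as Kobayashi's conjecture
predicts; this last step is not formalised here.

`SubVar Φ L w z`: `z` is the generic point, and `L` the function field, of a closed subvariety of
dimension `w` of `{Φ = 0}`. `SubVar`, `GeneralType`, `GmCurve` (`Pool/Agent/W602/GT`), `Pt`, `MapOn`,
`FibLe`, `Covers` (`Pool/Agent/X333/PW/Def.lean`), `HighTowers` (`Pool/Agent/TH710/ND/Proj.lean`).
-/

set_option autoImplicit false

namespace Pool.Agent.Results.MP_1e3e9c_ag.PiecewiseCanonical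

open Pool.Agent.W602.GT Pool.Agent.Y221.FQ Pool.Agent.TH710.ND Pool.Agent.X333.PW

/-- Let `X = {Φ = 0}` be a projective variety in `ℙ^M`, `T` a set of forms and `Z` the closed subset
of `X` where all forms in `T` vanish (`Z` is empty for `T = {1}`). Suppose that `X \ Z` is contained
in the union of the images of finitely many quasi-projective varieties
`V_a = {F_a = 0, Q_a ≠ 0}` in `ℙ^(n a)` under morphisms `G_a : V_a → X` with fibres of at most `r a`
points, where the forms `F_a` are nested sums with at most `h a + 1` levels, at most `s a` summands
at each, and exponents at least `8 ρ (r a) (n a + 1) (h a + 1) (2 (s a) + 1) ^ 5`. Suppose that all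
nonconstant morphisms from the multiplicative group to `X` have their images in `Z`. Let `S` be a
closed subvariety of `X` of dimension `w ≥ 1` which is not contained in `Z`, with generic point `z`
and function field `L`, and let `Y` be a variety with function field `L0` and a dominant rational
map `S ⇢ Y` of degree at most `ρ` (for instance `Y = S`, or the quotient of `S` by a group of at
most `ρ` birational automorphisms). Then the canonical class of `Y` (of a resolution) is big. -/
theorem result {k : Type} [Field k] [IsAlgClosed k] [CharZero k] {M : ℕ} {μ : Type}
    {Φ : μ → MvPolynomial (Fin (M + 1)) k} {α : Type} [Finite α]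
    {n : α → ℕ} {ι : α → Type} {F : ∀ a, ι a → MvPolynomial (Fin (n a + 1)) k}
    {Q : ∀ a, MvPolynomial (Fin (n a + 1)) k}
    {G : ∀ a, Fin (M + 1) → MvPolynomial (Fin (n a + 1)) k} {r s N h : α → ℕ} {ρ : ℕ}
    {T : Set (MvPolynomial (Fin (M + 1)) k)} (hΦ : ∀ e, IsForm (Φ e)) (hT : ∀ H ∈ T, IsForm H)
    (hcov : Covers F Q Φ G T) (hG : ∀ a, MapOn (F a) (Q a) Φ (G a))
    (hfib : ∀ a, FibLe (F a) (Q a) (G a) (r a)) (hF : ∀ a, HighTowers (s a) (N a) (h a) (F a))
    (hN : ∀ a, 8 * (ρ * r a * ((n a + 1) * ((h a + 1) * (2 * s a + 1) ^ 5))) ≤ N a)
    (hGm : ∀ P, GmCurve Φ P → ∀ t : k, t ≠ 0 → ∀ H ∈ T, val (fun i => (P i).eval t) H = 0)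
    (L : Type) [Field L] [Algebra k L] (w : ℕ) (z : Fin (M + 1) → L) (hw : 1 ≤ w)
    (hz : SubVar Φ L w z) (hzT : ∃ H ∈ T, val z H ≠ 0) (L0 : Type) [Field L0] [Algebra k L0]
    [Algebra L0 L] [IsScalarTower k L0 L] [FiniteDimensional L0 L]
    (hρ : Module.finrank L0 L ≤ ρ) : GeneralType k L0 w :=
  gen_rho hΦ hcov hG hfib hF hN hT hGm hw hz hzT hρ

end Pool.Agent.Results.MP_1e3e9c_ag.PiecewiseCanonical
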